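import Pool.Agent.Helper87.MD.Goals

/-!
# MD-LAT: the lattice lemma
-/

set_option autoImplicit false

open Finset
open scoped Classical

namespace Pool.Agent.Helper57.MD

open Pool.Agent.Helper98.Lang Pool.Agent.Helper87.MD

theorem nd_le_abs (x : ℝ) (n : ℤ) : nd x ≤ |x - n| := by
  unfold nd
  exact round_le x n

theorem nd_neg (x : ℝ) : nd (-x) = nd x := by
  have h : ∀ y : ℝ, nd (-y) ≤ nd y := by
    intro y
    have h1 := nd_le_abs (-y) (-(round y))
    have h2 : |(-y : ℝ) - ((-(round y) : ℤ) : ℝ)| = nd y := by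
      unfold nd
      push_cast
      rw [show -y - -(round y : ℝ) = -(y - round y) by ring, abs_neg]
    rwa [h2] at h1
  refine le_antisymm (h x) ?_
  have := h (-x)
  rwa [neg_neg] at this

theorem nd_nonneg (x : ℝ) : 0 ≤ nd x := abs_nonneg _

/-- a separated set -/
theorem sep_card (B : Finset ℕ) (X : ℕ) (d : ℝ) (hd : 0 < d) (hB : ∀ x ∈ B, x ≤ X)
    (hs : ∀ x ∈ B, ∀ y ∈ B, x < y → d ≤ (y : ℝ) - x) : (B.card : ℝ) ≤ X / d + 1 := by
  have h1 : B.card ≤ (range (⌊(X : ℝ) / d⌋₊ + 1)).card := by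
    refine card_le_card_of_injOn (fun x => ⌊(x : ℝ) / d⌋₊) ?_ ?_
    · intro x hx
      have hx' : x ≤ X := hB x (by simpa using hx)
      have : ⌊(x : ℝ) / d⌋₊ ≤ ⌊(X : ℝ) / d⌋₊ := by
        apply Nat.floor_mono
        apply div_le_div_of_nonneg_right _ hd.le
        exact_mod_cast hx'
      simpa using Nat.lt_succ_of_le this
    · have key : ∀ x ∈ B, ∀ y ∈ B, x < y → ⌊(x : ℝ) / d⌋₊ ≠ ⌊(y : ℝ) / d⌋₊ := by
        intro x hx y hy hxy heq
        have h2 := hs x hx y hy hxy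
        have h3 : (x : ℝ) / d + 1 ≤ (y : ℝ) / d := by
          rw [div_add_one hd.ne', div_le_div_iff_of_pos_right hd]
          linarith
        have h4 : ⌊(x : ℝ) / d + 1⌋₊ ≤ ⌊(y : ℝ) / d⌋₊ := Nat.floor_mono h3
        rw [Nat.floor_add_one (by positivity)] at h4
        omega
      intro x hx y hy hxy
      by_contra hne
      rcases Nat.lt_or_gt_of_ne hne with h | h
      · exact key x (by simpa using hx) y (by simpa using hy) h hxy
      · exact key y (by simpa using hy) x (by simpa using hx) h hxy.symm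
  rw [card_range] at h1
  have h2 : (B.card : ℝ) ≤ (⌊(X : ℝ) / d⌋₊ : ℝ) + 1 := by exact_mod_cast h1
  have h3 : (⌊(X : ℝ) / d⌋₊ : ℝ) ≤ X / d := Nat.floor_le (by positivity)
  linarith

/-- the combinatorial part -/
theorem core (θ η ρ : ℝ) (X w : ℕ) (m : ℤ) (hη : 0 < η) (hη4 : η < 1 / 4) (hw : 1 ≤ w)
    (hρ : 0 < ρ) (hρη : ρ ≤ 2 * η) (hwρ : (w : ℝ) * θ - m = ρ)
    (hmin : ∀ u : ℕ, 1 ≤ u → nd ((u : ℝ) * θ) ≤ 2 * η → w ≤ u) :
    (((Icc 1 X).filter (fun x : ℕ => nd ((x : ℝ) * θ) ≤ η)).card : ℝ)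
      ≤ (2 + 2 * ρ * X) * (1 + min (2 * η / ρ) (X / w)) := by
  obtain ⟨S, hS⟩ : ∃ S : Finset ℕ, S = (Icc 1 X).filter (fun x : ℕ => nd ((x : ℝ) * θ) ≤ η) :=
    ⟨_, rfl⟩
  have memS : ∀ x, x ∈ S ↔ (1 ≤ x ∧ x ≤ X) ∧ nd ((x : ℝ) * θ) ≤ η := by
    intro x
    rw [hS, mem_filter, mem_Icc]
  rw [← hS]
  have hw0 : (0 : ℝ) < w := by exact_mod_cast hw
  -- the residue
  let r : ℕ → ℝ := fun x => (x : ℝ) * θ - round ((x : ℝ) * θ)
  have hr : ∀ x ∈ S, |r x| ≤ η := fun x hx => ((memS x).1 hx).2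
  -- a step changes the residue by `ρ`
  have hstep : ∀ x, x ∈ S → x + w ∈ S → r (x + w) = r x + ρ := by
    intro x hx hxw
    have h1 := abs_le.1 (hr x hx)
    have h2 := abs_le.1 (hr _ hxw)
    have h3 : r (x + w) - r x - ρ =
        ((round ((x : ℝ) * θ) + m - round (((x + w : ℕ) : ℝ) * θ) : ℤ) : ℝ) := by
      simp only [r]
      rw [← hwρ]
      push_cast
      ring
    have h4 : |((round ((x : ℝ) * θ) + m - round (((x + w : ℕ) : ℝ) * θ) : ℤ) : ℝ)| < 1 := by
      rw [← h3, abs_lt]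
      constructor <;> linarith
    have h5 : (round ((x : ℝ) * θ) + m - round (((x + w : ℕ) : ℝ) * θ) : ℤ) = 0 := by
      have : |(round ((x : ℝ) * θ) + m - round (((x + w : ℕ) : ℝ) * θ) : ℤ)| < 1 := by
        exact_mod_cast h4
      exact Int.abs_lt_one_iff.1 this
    rw [h5] at h3
    simp only [Int.cast_zero] at h3
    linarith
  -- the starts
  let St : Finset ℕ := S.filter (fun x => ¬ (w < x ∧ x - w ∈ S))
  have hchain : ∀ n : ℕ, ∀ x ≤ n, x ∈ S → ∃ y ∈ St, ∃ k : ℕ, x = y + k * w ∧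
      r x = r y + k * ρ := by
    intro n
    induction n with
    | zero =>
      intro x hx hxS
      have := ((memS x).1 hxS).1.1
      omega
    | succ n ih =>
      intro x hx hxS
      by_cases h : w < x ∧ x - w ∈ S
      · obtain ⟨y, hy, k, hk, hrk⟩ := ih (x - w) (by omega) h.2
        refine ⟨y, hy, k + 1, ?_, ?_⟩
        · have : x = (x - w) + w := by omega
          rw [this, hk]
          ring
        · have h1 := hstep (x - w) h.2 (by rw [Nat.sub_add_cancel h.1.le]; exact hxS)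
          rw [Nat.sub_add_cancel h.1.le] at h1
          rw [h1, hrk]
          push_cast
          ring
      · exact ⟨x, by simp only [St, mem_filter]; exact ⟨hxS, h⟩, 0, by simp, by simp⟩
  obtain ⟨K, hK⟩ : ∃ K : ℕ, K = ⌊min (2 * η / ρ) ((X : ℝ) / w)⌋₊ := ⟨_, rfl⟩
  have hminpos : (0 : ℝ) ≤ min (2 * η / ρ) ((X : ℝ) / w) := le_min (by positivity) (by positivity)
  have hcov : S ⊆ (St ×ˢ range (K + 1)).image (fun z : ℕ × ℕ => z.1 + z.2 * w) := by
    intro x hx
    obtain ⟨y, hy, k, hk, hrk⟩ := hchain x x le_rfl hx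
    rw [mem_image]
    refine ⟨(y, k), ?_, hk.symm⟩
    rw [mem_product]
    refine ⟨hy, ?_⟩
    rw [mem_range, Nat.lt_succ_iff, hK]
    apply Nat.le_floor
    have hyS : y ∈ S := (mem_filter.1 hy).1
    apply le_min
    · rw [le_div_iff₀ hρ]
      have h1 := abs_le.1 (hr x hx)
      have h2 := abs_le.1 (hr y hyS)
      linarith
    · rw [le_div_iff₀ hw0]
      have h1 := ((memS x).1 hx).1.2
      have h2 : k * w ≤ X := by omega
      exact_mod_cast h2
  have hcard : S.card ≤ St.card * (K + 1) := by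
    refine (card_le_card hcov).trans (card_image_le.trans ?_)
    rw [card_product, card_range]
  -- the number of the starts
  have hSt : (St.card : ℝ) ≤ 2 + 2 * ρ * X := by
    let A : Finset ℕ := S.filter (fun x => x ≤ w)
    let B : Finset ℕ := S.filter (fun x => w < x ∧ x - w ∉ S)
    have hsub : St ⊆ A ∪ B := by
      intro x hx
      have hx' := mem_filter.1 hx
      rw [mem_union]
      by_cases h : x ≤ w
      · exact Or.inl (mem_filter.2 ⟨hx'.1, h⟩)
      · exact Or.inr (mem_filter.2 ⟨hx'.1, by omega, fun h2 => hx'.2 ⟨by omega, h2⟩⟩)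
    have hdiff : ∀ x y : ℕ, x < y → nd (((y - x : ℕ) : ℝ) * θ) ≤ |r y - r x| := by
      intro x y hxy
      have h1 := nd_le_abs (((y - x : ℕ) : ℝ) * θ) (round ((y : ℝ) * θ) - round ((x : ℝ) * θ))
      refine h1.trans (le_of_eq ?_)
      congr 1
      simp only [r]
      rw [Nat.cast_sub hxy.le]
      push_cast
      ring
    have hA : A.card ≤ 1 := by
      rw [card_le_one]
      have key : ∀ x ∈ A, ∀ y ∈ A, ¬ x < y := by
        intro x hx y hy hxy
        have hx' := mem_filter.1 hx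
        have hy' := mem_filter.1 hy
        have h1 := abs_le.1 (hr x hx'.1)
        have h2 := abs_le.1 (hr y hy'.1)
        have h3 : nd (((y - x : ℕ) : ℝ) * θ) ≤ 2 * η := by
          refine (hdiff x y hxy).trans ?_
          rw [abs_le]
          constructor <;> linarith
        have h4 := hmin (y - x) (by omega) h3
        have h5 := ((memS x).1 hx'.1).1.1
        have h6 := hy'.2
        omega
      intro x hx y hy
      by_contra hne
      rcases Nat.lt_or_gt_of_ne hne with h | h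
      · exact key x hx y hy h
      · exact key y hy x hx h
    have hBr : ∀ x ∈ B, r x < -η + ρ := by
      intro x hx
      have hx' := mem_filter.1 hx
      by_contra hcon
      rw [not_lt] at hcon
      have h2 := abs_le.1 (hr x hx'.1)
      apply hx'.2.2
      rw [memS]
      have h5 := ((memS x).1 hx'.1).1.2
      refine ⟨⟨by omega, by omega⟩, ?_⟩
      have h3 := nd_le_abs (((x - w : ℕ) : ℝ) * θ) (round ((x : ℝ) * θ) - m)
      refine h3.trans ?_
      have h4 : ((x - w : ℕ) : ℝ) * θ - ((round ((x : ℝ) * θ) - m : ℤ) : ℝ) = r x - ρ := by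
        simp only [r]
        rw [← hwρ, Nat.cast_sub hx'.2.1.le]
        push_cast
        ring
      rw [h4, abs_le]
      constructor <;> linarith
    have hB : (B.card : ℝ) ≤ X / (1 / (2 * ρ)) + 1 := by
      apply sep_card B X _ (by positivity)
      · intro x hx
        exact ((memS x).1 (mem_filter.1 hx).1).1.2
      · intro x hx y hy hxy
        have hx1 := abs_le.1 (hr x (mem_filter.1 hx).1)
        have hy1 := abs_le.1 (hr y (mem_filter.1 hy).1)
        have hx2 := hBr x hx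
        have hy2 := hBr y hy
        have hτ : |r y - r x| < ρ := by
          rw [abs_lt]
          constructor <;> linarith
        have h3 : nd (((y - x : ℕ) : ℝ) * θ) ≤ 2 * η := (hdiff x y hxy).trans (by linarith)
        have h4 : w ≤ y - x := hmin (y - x) (by omega) h3
        have h4R : (w : ℝ) ≤ (y : ℝ) - x := by
          have : (w : ℝ) ≤ ((y - x : ℕ) : ℝ) := by exact_mod_cast h4
          rwa [Nat.cast_sub hxy.le] at this
        -- the determinant
        obtain ⟨n0, hn0⟩ : ∃ n0 : ℤ, n0 = ((y : ℤ) - x) * m -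
            w * (round ((y : ℝ) * θ) - round ((x : ℝ) * θ)) := ⟨_, rfl⟩
        have hdet : (n0 : ℝ) = w * (r y - r x) - ((y : ℝ) - x) * ρ := by
          rw [hn0]
          simp only [r]
          rw [← hwρ]
          push_cast
          ring
        have hτ' := abs_lt.1 hτ
        have hne : n0 ≠ 0 := by
          intro h0
          rw [h0] at hdet
          simp only [Int.cast_zero] at hdet
          have h5 : (w : ℝ) * (r y - r x) < w * ρ := mul_lt_mul_of_pos_left hτ'.2 hw0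
          have h6 : (w : ℝ) * ρ ≤ ((y : ℝ) - x) * ρ := mul_le_mul_of_nonneg_right h4R hρ.le
          linarith
        have h7 : (1 : ℝ) ≤ |(n0 : ℝ)| := by
          have : (1 : ℤ) ≤ |n0| := Int.one_le_abs hne
          exact_mod_cast this
        have h8 : |(n0 : ℝ)| ≤ 2 * (((y : ℝ) - x) * ρ) := by
          rw [hdet]
          have h5 : (w : ℝ) * (r y - r x) ≤ w * ρ := (mul_lt_mul_of_pos_left hτ'.2 hw0).le
          have h5' : (w : ℝ) * (-ρ) ≤ w * (r y - r x) := (mul_lt_mul_of_pos_left hτ'.1 hw0).le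
          have h6 : (w : ℝ) * ρ ≤ ((y : ℝ) - x) * ρ := mul_le_mul_of_nonneg_right h4R hρ.le
          have h9 : 0 ≤ (w : ℝ) * ρ := by positivity
          rw [abs_le]
          constructor <;> linarith
        rw [div_le_iff₀ (by positivity)]
        linarith
    have h1 : (St.card : ℝ) ≤ A.card + B.card := by
      exact_mod_cast (card_le_card hsub).trans (card_union_le A B)
    have h2 : (A.card : ℝ) ≤ 1 := by exact_mod_cast hA
    have h3 : (X : ℝ) / (1 / (2 * ρ)) = 2 * ρ * X := by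
      rw [div_div_eq_mul_div, div_one]
      ring
    rw [h3] at hB
    linarith
  have hKle : (K : ℝ) ≤ min (2 * η / ρ) ((X : ℝ) / w) := by
    rw [hK]
    exact Nat.floor_le hminpos
  calc (S.card : ℝ) ≤ (St.card : ℝ) * (K + 1) := by exact_mod_cast hcard
    _ ≤ (2 + 2 * ρ * X) * (1 + min (2 * η / ρ) ((X : ℝ) / w)) := by
        apply mul_le_mul hSt (by linarith) (by positivity) (by positivity)

/-- **Packet LAT.** -/
theorem lat : LatStmt := by
  intro ξ hξ δ hδ
  obtain ⟨c₁, hc₁, hR⟩ := hξ δ hδ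
  refine ⟨8 + 2 / √c₁ + 2 * √(2 / c₁), by positivity, ?_⟩
  intro s X η hs hX hη
  have hs0 : (0 : ℝ) < s := by exact_mod_cast hs
  have hX0 : (0 : ℝ) < X := by exact_mod_cast hX
  obtain ⟨P, hP⟩ : ∃ P : ℝ, P = (η * ((s : ℝ) * X) ^ (1 + δ)) ^ ((1 : ℝ) / 2) := ⟨_, rfl⟩
  have hP0 : 0 ≤ P := by rw [hP]; positivity
  have hP2 : P ^ 2 = η * ((s : ℝ) * X) ^ (1 + δ) := by
    rw [hP, ← Real.sqrt_eq_rpow, Real.sq_sqrt (by positivity)]
  rw [← hP]
  obtain ⟨S, hS⟩ : ∃ S : Finset ℕ,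
    S = (Icc 1 X).filter (fun x : ℕ => nd ((x : ℝ) * (s * ξ)) ≤ η) := ⟨_, rfl⟩
  rw [← hS]
  have hCpos : (0 : ℝ) ≤ 2 / √c₁ + 2 * √(2 / c₁) := by positivity
  have hηX : 0 < η * X := by positivity
  rcases le_or_gt (1 / 4) η with h4 | h4
  · have h1 : (S.card : ℝ) ≤ X := by
      have : S.card ≤ (Icc 1 X).card := by
        rw [hS]
        exact card_filter_le _ _
      rw [Nat.card_Icc] at this
      exact_mod_cast (by omega : S.card ≤ X)
    have h2 : (X : ℝ) ≤ 4 * (η * X) := by nlinarith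
    have h3 : 0 ≤ (2 / √c₁ + 2 * √(2 / c₁)) * (η * X + P) := by positivity
    nlinarith
  rcases S.eq_empty_or_nonempty with h0 | ⟨x0, hx0⟩
  · rw [h0]
    simp only [card_empty, Nat.cast_zero]
    positivity
  have hx0' : (1 ≤ x0 ∧ x0 ≤ X) ∧ nd ((x0 : ℝ) * (s * ξ)) ≤ η := by
    rw [hS, mem_filter, mem_Icc] at hx0
    exact hx0
  -- Roth
  have hroth : ∀ u : ℕ, 1 ≤ u → c₁ ≤ nd ((u : ℝ) * (s * ξ)) * ((u : ℝ) * s) ^ (1 + δ) := by
    intro u hu
    have h1 := hR (u * s) (Nat.mul_pos hu hs)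
    have hu0 : (0 : ℝ) < u := by exact_mod_cast hu
    have h2 : ((u * s : ℕ) : ℝ) = (u : ℝ) * s := by push_cast; ring
    rw [h2, Real.rpow_neg (by positivity), ← div_eq_mul_inv, div_le_iff₀ (by positivity)] at h1
    rwa [mul_assoc (u : ℝ) s ξ] at h1
  -- the least `w`
  have hex : ∃ u : ℕ, 1 ≤ u ∧ nd ((u : ℝ) * (s * ξ)) ≤ 2 * η :=
    ⟨x0, hx0'.1.1, hx0'.2.trans (by linarith)⟩
  obtain ⟨w, hw, hwle, hwmin⟩ : ∃ w : ℕ, 1 ≤ w ∧ nd ((w : ℝ) * (s * ξ)) ≤ 2 * η ∧
      ∀ u : ℕ, 1 ≤ u → nd ((u : ℝ) * (s * ξ)) ≤ 2 * η → w ≤ u :=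
    ⟨Nat.find hex, (Nat.find_spec hex).1, (Nat.find_spec hex).2,
      fun u hu hu2 => Nat.find_min' hex ⟨hu, hu2⟩⟩
  have hwX : w ≤ X := (hwmin x0 hx0'.1.1 (hx0'.2.trans (by linarith))).trans hx0'.1.2
  have hw0 : (0 : ℝ) < w := by exact_mod_cast hw
  have hwXR : (w : ℝ) ≤ X := by exact_mod_cast hwX
  obtain ⟨ρ, hρdef⟩ : ∃ ρ : ℝ, ρ = nd ((w : ℝ) * (s * ξ)) := ⟨_, rfl⟩
  have hρR := hroth w hw
  rw [← hρdef] at hρR hwle
  have hρ : 0 < ρ := by
    by_contra hcon
    rw [not_lt] at hcon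
    have : ρ * ((w : ℝ) * s) ^ (1 + δ) ≤ 0 := mul_nonpos_of_nonpos_of_nonneg hcon (by positivity)
    linarith
  -- the count
  have hcount : (S.card : ℝ) ≤ (2 + 2 * ρ * X) * (1 + min (2 * η / ρ) (X / w)) := by
    rcases le_or_gt 0 ((w : ℝ) * (s * ξ) - round ((w : ℝ) * (s * ξ))) with hsgn | hsgn
    · rw [hS]
      refine core (s * ξ) η ρ X w (round ((w : ℝ) * (s * ξ))) hη h4 hw hρ hwle ?_ hwmin
      rw [hρdef]
      unfold nd
      rw [abs_of_nonneg hsgn]
    · have h1 := core (-(s * ξ)) η ρ X w (-round ((w : ℝ) * (s * ξ))) hη h4 hw hρ hwle ?_ ?_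
      · rw [hS]
        simpa only [mul_neg, nd_neg] using h1
      · rw [hρdef]
        unfold nd
        rw [abs_of_neg hsgn]
        push_cast
        ring
      · simpa only [mul_neg, nd_neg] using hwmin
  -- the estimates
  have hsq : √c₁ ^ 2 = c₁ := Real.sq_sqrt hc₁.le
  have hsq0 : 0 < √c₁ := Real.sqrt_pos.2 hc₁
  have hone : 1 ≤ P / √c₁ := by
    rw [le_div_iff₀ hsq0, one_mul]
    apply Real.sqrt_le_iff.2
    refine ⟨hP0, ?_⟩
    rw [hP2]
    have h1 := hroth x0 hx0'.1.1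
    have hx0R : (x0 : ℝ) ≤ X := by exact_mod_cast hx0'.1.2
    have hx00 : (0 : ℝ) < x0 := by exact_mod_cast hx0'.1.1
    calc c₁ ≤ nd ((x0 : ℝ) * (s * ξ)) * ((x0 : ℝ) * s) ^ (1 + δ) := h1
      _ ≤ η * ((s : ℝ) * X) ^ (1 + δ) := by
          apply mul_le_mul hx0'.2 _ (by positivity) hη.le
          apply Real.rpow_le_rpow (by positivity) _ (by linarith)
          nlinarith
  have hmn0 : 0 ≤ min (2 * η / ρ) ((X : ℝ) / w) := le_min (by positivity) (by positivity)
  have hmn : min (2 * η / ρ) ((X : ℝ) / w) ≤ √(2 / c₁) * P := by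
    have h1 : min (2 * η / ρ) ((X : ℝ) / w) ^ 2 ≤ (2 * η / ρ) * (X / w) := by
      rw [sq]
      exact mul_le_mul (min_le_left _ _) (min_le_right _ _) hmn0 (by positivity)
    have h2 : c₁ * X ≤ ρ * w * ((s : ℝ) * X) ^ (1 + δ) := by
      have h3 : ((w : ℝ) * s) ^ (1 + δ) * X ≤ w * ((s : ℝ) * X) ^ (1 + δ) := by
        rw [Real.rpow_add (by positivity), Real.rpow_add (by positivity), Real.rpow_one,
          Real.rpow_one]
        have h5 : ((w : ℝ) * s) ^ δ ≤ ((s : ℝ) * X) ^ δ := by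
          apply Real.rpow_le_rpow (by positivity) _ hδ.le
          nlinarith
        calc (w : ℝ) * s * ((w : ℝ) * s) ^ δ * X = w * (s * X) * ((w : ℝ) * s) ^ δ := by ring
          _ ≤ w * (s * X) * ((s : ℝ) * X) ^ δ := mul_le_mul_of_nonneg_left h5 (by positivity)
          _ = w * ((s : ℝ) * X * ((s : ℝ) * X) ^ δ) := by ring
      calc c₁ * X ≤ ρ * ((w : ℝ) * s) ^ (1 + δ) * X := mul_le_mul_of_nonneg_right hρR hX0.le
        _ = ρ * (((w : ℝ) * s) ^ (1 + δ) * X) := by ring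
        _ ≤ ρ * (w * ((s : ℝ) * X) ^ (1 + δ)) := mul_le_mul_of_nonneg_left h3 hρ.le
        _ = _ := by ring
    have h3 : (2 * η / ρ) * (X / w) ≤ (√(2 / c₁) * P) ^ 2 := by
      rw [mul_pow, hP2, Real.sq_sqrt (by positivity), div_mul_div_comm, div_mul_eq_mul_div,
        div_le_div_iff₀ (by positivity) hc₁]
      calc 2 * η * X * c₁ = 2 * η * (c₁ * X) := by ring
        _ ≤ 2 * η * (ρ * w * ((s : ℝ) * X) ^ (1 + δ)) :=
            mul_le_mul_of_nonneg_left h2 (by positivity)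
        _ = _ := by ring
    exact (pow_le_pow_iff_left₀ hmn0 (by positivity) (by norm_num)).1 (h1.trans h3)
  have hprod : ρ * X * min (2 * η / ρ) ((X : ℝ) / w) ≤ 2 * (η * X) := by
    calc ρ * X * min (2 * η / ρ) ((X : ℝ) / w) ≤ ρ * X * (2 * η / ρ) :=
          mul_le_mul_of_nonneg_left (min_le_left _ _) (by positivity)
      _ = 2 * (η * X) := by
          field_simp
  have hρX : ρ * X ≤ 2 * (η * X) := by nlinarith
  have e1 : 2 / √c₁ * P = 2 * (P / √c₁) := by ring
  have h9 : 0 ≤ (2 / √c₁ + 2 * √(2 / c₁)) * (η * X) := by positivity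
  have h10 : 0 ≤ 8 * P := by positivity
  calc (S.card : ℝ) ≤ (2 + 2 * ρ * X) * (1 + min (2 * η / ρ) (X / w)) := hcount
    _ = 2 + 2 * (ρ * X) + 2 * min (2 * η / ρ) (X / w) +
        2 * (ρ * X * min (2 * η / ρ) (X / w)) := by ring
    _ ≤ 2 * (P / √c₁) + 2 * (2 * (η * X)) + 2 * (√(2 / c₁) * P) + 2 * (2 * (η * X)) := by
        linarith
    _ = 8 * (η * X) + (2 / √c₁ * P + 2 * √(2 / c₁) * P) := by rw [e1]; ring
    _ ≤ (8 + 2 / √c₁ + 2 * √(2 / c₁)) * (η * X + P) := by nlinarith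

end Pool.Agent.Helper57.MD
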